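import Pool.Agent.Helper70.DU.St.Z

/-!
# MP_a463e5_al, Q1: dualisability of finite algebras is undecidable

The definitions (`FinAlg`, `FinAlg.FinDualisable`, `FinAlg.Dualisable`, `FinAlg.code`, ...) are in
`Pool/Agent/Helper70/DU/Statement.lean`.
-/

namespace Pool.Agent.Results.MP_a463e5_al.Undecidable

open Pool.Agent.Helper70.DU

universe u

/-- There is no algorithm that, given (the code of) a finite algebra, answers `true` if it is
dualisable by a structure with finitely many operations, partial operations and relations, and
`false` if it is not dualisable even by a structure with arbitrarily many of them.  In particular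
neither the set of codes of the finite algebras dualisable by a finite family (the notion of the
problem file) nor the set of codes of the finite algebras dualisable by an arbitrary family is
recursive. -/
theorem result :
    (¬ ∃ P : ℕ × List (ℕ × List ℕ) → Bool, Computable P ∧
      (∀ M : FinAlg, FinAlg.FinDualisable.{u} M → P M.code = true) ∧
      (∀ M : FinAlg, ¬ FinAlg.Dualisable.{u} M → P M.code = false)) ∧
    (¬ ComputablePred (fun c : ℕ × List (ℕ × List ℕ) =>
      ∃ M : FinAlg, M.code = c ∧ FinAlg.FinDualisable.{u} M)) ∧
    ¬ ComputablePred (fun c : ℕ × List (ℕ × List ℕ) =>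
      ∃ M : FinAlg, M.code = c ∧ FinAlg.Dualisable.{u} M) := by
  have hfd : ∀ M : FinAlg, FinAlg.FinDualisable.{u} M → FinAlg.Dualisable.{u} M := by
    rintro M ⟨E, -, h1, h2⟩
    exact ⟨E, h1, h2⟩
  refine ⟨?_, (undecidable _ (fun M h => h) hfd).2, (undecidable _ hfd (fun M h => h)).2⟩
  rintro ⟨P, hP, h1, h2⟩
  refine (undecidable (fun M => P M.code = true) h1 ?_).1 ⟨P, hP, fun M => Iff.rfl⟩
  intro M hM
  by_contra hn
  rw [h2 M hn] at hM
  exact absurd hM (by simp)

end Pool.Agent.Results.MP_a463e5_al.Undecidable
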